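import Pool.Agent.H.MP_3d59a4_gt.A

namespace Pool.Agent.Results.MP_3d59a4_gt.NotLambda

/-- `M` is the union of two proper subcontinua. -/
def Decomposable {Z : Type} [TopologicalSpace Z] (M : Set Z) : Prop :=
  ∃ A B : Set Z, A ⊆ M ∧ B ⊆ M ∧ A ≠ M ∧ B ≠ M ∧ IsCompact A ∧ IsConnected A ∧
    IsCompact B ∧ IsConnected B ∧ A ∪ B = M

/-- Any two points lie in a hereditarily decomposable subcontinuum. -/
def LambdaConnected (Z : Type) [TopologicalSpace Z] : Prop :=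
  ∀ p q : Z, ∃ K : Set Z, IsCompact K ∧ IsConnected K ∧ p ∈ K ∧ q ∈ K ∧
    ∀ M : Set Z, M ⊆ K → IsCompact M → IsConnected M → M.Nontrivial → Decomposable M

theorem result :
    ∃ (X : Type) (_ : MetricSpace X) (_ : CompactSpace X) (_ : ConnectedSpace X)
      (_ : Nontrivial X), ∀ (Y : Type) [MetricSpace Y] [CompactSpace Y] [ConnectedSpace Y],
        ¬ LambdaConnected (X × Y) := by
  refine ⟨Pool.Agent.H.MP_ea0cba_gt.Sol, TopologicalSpace.metrizableSpaceMetric _, inferInstance,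
    inferInstance, inferInstance, fun Y _ _ _ h => ?_⟩
  obtain ⟨p, q, H⟩ := Pool.Agent.H.MP_3d59a4_gt.not_lambda (Y := Y)
    Pool.Agent.H.MP_3d59a4_gt.sol_univ
  obtain ⟨K, h1, h2, h3, h4, h5⟩ := h p q
  exact H K h1 h2 h3 h4 h5

end Pool.Agent.Results.MP_3d59a4_gt.NotLambda
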